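import Pool.Agent.T9h16.QI.Spec
import Pool.Agent.T9h34.QE.Final

set_option autoImplicit false

/-!
# Planted cliques in G(n, p), pointwise: the final theorem
-/

namespace Pool.Agent.T9h34.QI

open Finset
open Pool.Agent.PC34 (prob withClique labelGraph)
open Pool.Agent.T9h34 (graphInput)
open Pool.Agent.T9h34.P (gr)
open Pool.Agent.HC34 (srcs IsLevel DepthLE)
open Pool.Agent.T9h34.Q
open Pool.Agent.T9h34.QE
open Pool.Agent.T9h16.QI
open Pool.Agent.T9h16.QL (low EnvL finEnvL toEnv StExchL labelGraph_eq)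

/-- (A2) The parameters of the theorem are those of the experiment. -/
theorem stFinalP (hAll : StAllP) (hPar : StParamsE) : StFinalP := by
  intro δ h0 h1
  obtain ⟨n₀, hn₀⟩ := hPar δ h0 h1
  refine ⟨max n₀ 1, ?_⟩
  intro n k f s D a L hn hk hD hns hf ha haL hlog hfl d' C hC hCs hdep
  have hnpos : 0 < n := lt_of_lt_of_le Nat.one_pos (le_trans (le_max_right _ _) hn)
  have hn' : n₀ ≤ n := le_trans (le_max_left _ _) hn
  have hn1 : (1 : ℝ) ≤ n := by exact_mod_cast hnpos
  have hn0 : (0 : ℝ) < n := by linarith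
  have ha0 : (0 : ℝ) < a := by exact_mod_cast ha
  have hμ : (1 : ℝ) ≤ (L : ℝ) / a := by
    rw [le_div_iff₀ ha0, one_mul]
    exact_mod_cast haL
  have hν : (0 : ℝ) ≤ (L : ℝ) / a - 1 := by linarith
  have hsq : 0 ≤ Real.sqrt ((L : ℝ) / a - 1) := Real.sqrt_nonneg _
  have hn2 : (0 : ℝ) < (n : ℝ) ^ (-2 : ℝ) := by positivity
  have hX : 0 ≤ Real.sqrt ((L : ℝ) / a - 1) * (((k : ℝ) * D) ^ 2 * (n : ℝ) ^ (δ - 1)) := by
    positivity
  have htriv : (1 : ℝ) ≤ 2 ^ C.numTests * (Real.sqrt (L / a - 1) *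
        (((k : ℝ) * D) ^ 2 * (n : ℝ) ^ (δ - 1)) + (n : ℝ) ^ (-2 : ℝ)) →
      prob (fun x : (Sym2 (Fin n) → Fin L) × {S : Finset (Fin n) // S.card = k} =>
        C.eval (graphInput (withClique (labelGraph x.1 a) x.2.1)) = true ∧
          C.eval (graphInput (labelGraph x.1 a)) = false) ≤
        2 ^ C.numTests * (Real.sqrt (L / a - 1) * (((k : ℝ) * D) ^ 2 * (n : ℝ) ^ (δ - 1)) +
          (n : ℝ) ^ (-2 : ℝ)) := fun h => (prob_le_one _).trans h
  by_cases hkn' : k ≤ n
  · by_cases hT : C.numTests ≤ 2 * Nat.log 2 n + 1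
    · by_cases hkn : Real.sqrt ((L : ℝ) / a - 1) * ((k : ℝ) * D) ^ 2 < (n : ℝ) ^ (1 - δ)
      · have hlog' : f * Real.log s * Real.log (1 + ((L : ℝ) / a - 1)) ≤
            δ ^ 2 / 10000 * Real.log n ^ 2 := by
          rw [add_sub_cancel]
          exact hlog
        obtain ⟨_, c, m, q, B, d, hc, hd, hm, hq, hB, hR, herr⟩ :=
          hn₀ n k f s D ((L : ℝ) / a - 1) hn' hk hkn' hD hns hf hν hlog' hfl hkn
        have h2 := hAll n L a B d m k f c q D s d' C ha haL hnpos hkn' hC hCs hdep hf hc hd hm hq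
          (le_trans (Nat.mul_le_mul_left q (by omega)) hB) hR
        simp only [labelGraph_eq, withClique_gr]
        refine h2.trans ?_
        rw [add_sub_cancel] at herr
        have h7 := mul_le_mul_of_nonneg_left herr
          (by positivity : (0 : ℝ) ≤ 2 ^ C.numTests)
        have h8 : dst L a n (Fintype.card (Rt B d m)) =
            2 * Real.sqrt ((L : ℝ) / a - 1) * (Fintype.card (Rt B d m) : ℕ) / n := rfl
        rw [h8]
        linarith
      · push Not at hkn
        apply htriv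
        have h8 : (1 : ℝ) ≤ Real.sqrt (L / a - 1) * (((k : ℝ) * D) ^ 2 * (n : ℝ) ^ (δ - 1)) := by
          calc (1 : ℝ) = (n : ℝ) ^ (1 - δ) * (n : ℝ) ^ (δ - 1) := by
                rw [← Real.rpow_add hn0]
                simp
            _ ≤ Real.sqrt ((L : ℝ) / a - 1) * ((k : ℝ) * D) ^ 2 * (n : ℝ) ^ (δ - 1) :=
                mul_le_mul_of_nonneg_right hkn (by positivity)
            _ = _ := by ring
        have h9 : (1 : ℝ) ≤ 2 ^ C.numTests := one_le_pow₀ (by norm_num)
        nlinarith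
    · push Not at hT
      have h2 : n ^ 2 < 2 ^ C.numTests := by
        have h3 := Nat.lt_pow_succ_log_self (b := 2) (by norm_num) n
        calc n ^ 2 < (2 ^ (Nat.log 2 n + 1)) ^ 2 := Nat.pow_lt_pow_left h3 (by norm_num)
          _ = 2 ^ (2 * Nat.log 2 n + 2) := by
              rw [← pow_mul]; congr 1; ring
          _ ≤ 2 ^ C.numTests := Nat.pow_le_pow_right (by norm_num) (by omega)
      have h3 : (n : ℝ) ^ 2 ≤ 2 ^ C.numTests := by exact_mod_cast h2.le
      apply htriv
      have h4 : (n : ℝ) ^ 2 * (n : ℝ) ^ (-2 : ℝ) = 1 := by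
        rw [← Real.rpow_natCast, ← Real.rpow_add hn0]
        norm_num
      have h5 : (n : ℝ) ^ 2 * (n : ℝ) ^ (-2 : ℝ) ≤ 2 ^ C.numTests * (n : ℝ) ^ (-2 : ℝ) :=
        mul_le_mul_of_nonneg_right h3 hn2.le
      have h6 : 0 ≤ 2 ^ C.numTests * (Real.sqrt ((L : ℝ) / a - 1) *
        (((k : ℝ) * D) ^ 2 * (n : ℝ) ^ (δ - 1))) := by positivity
      nlinarith
  · have hem : IsEmpty {S : Finset (Fin n) // S.card = k} := by
      constructor
      rintro ⟨S, hS⟩
      have := Finset.card_le_univ S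
      rw [Fintype.card_fin] at this
      omega
    have h0 : prob (fun x : (Sym2 (Fin n) → Fin L) × {S : Finset (Fin n) // S.card = k} =>
        C.eval (graphInput (withClique (labelGraph x.1 a) x.2.1)) = true ∧
          C.eval (graphInput (labelGraph x.1 a)) = false) = 0 := by
      unfold prob
      rw [Fintype.card_eq_zero]
      simp
    rw [h0]
    positivity

end Pool.Agent.T9h34.QI
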