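import Pool.Agent.T9h34.QI.MainI
import Pool.Agent.T9h16.QI.Search

set_option autoImplicit false

/-!
# Planted cliques in G(n, p), pointwise: several circuits, search
-/

namespace Pool.Agent.T9h34.QI

open Pool.Agent.T9h16.QI

/-- The outputs of several circuits do not change. -/
theorem multiA : StMulti := T9h16.QI.stMulti finalP T9h73.QI.stCompl

/-- **Search.** -/
theorem searchA : StSearch := T9h16.QI.stSearch multiA

end Pool.Agent.T9h34.QI
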