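import Pool.Agent.T9h34.QE.MainE
import Pool.Agent.T9h34.QI.FinalP
import Pool.Agent.T9h22.QI.AllP
import Pool.Agent.T9h73.QI.Compl
import Pool.Agent.T9h41.QI.Mid
import Pool.Agent.T9h69.QI.Miss
import Pool.Agent.T9h16.QI.Gen
import Pool.Agent.T9h16.QI.Ind

set_option autoImplicit false

/-!
# Planted cliques in G(n, p), pointwise, and independence at the threshold: assembly
-/

namespace Pool.Agent.T9h34.QI

open Pool.Agent.PC34 (prob withClique labelGraph)
open Pool.Agent.T9h34.Q
open Pool.Agent.T9h34.QE
open Pool.Agent.T9h16.QI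

theorem allP : StAllP :=
  T9h22.QI.stAllP monoE T9h36.QC.stDetector T9h36.QC.stReads (T9h93.QE.stTVE T9h65.QE.stStarE)

/-- **Planted cliques, pointwise, for every density.** -/
theorem finalP : StFinalP := stFinalP allP T9h65.QE.stParamsE

/-- **Independence at the threshold.** -/
theorem indI : StInd :=
  T9h16.QI.stInd finalP T9h73.QI.stCompl T9h41.QI.stMid T9h69.QI.stMiss T9h16.QI.stGen

end Pool.Agent.T9h34.QI
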